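import Pool.Agent.Helper88.MT.Stm

/-!
# Package EXT of the project MT: an invariant extension of a valuation ring
-/

set_option autoImplicit false

namespace Pool.Agent.Helper64.MT

/-- A valuation subring extends to every larger field. -/
lemma exists_ext {L N : Type} [Field L] [Field N] (f : L →+* N) (O : ValuationSubring L) :
    ∃ W : ValuationSubring N, W.comap f = O := by
  obtain ⟨W, hW, hloc⟩ := (O.toLocalSubring.map f).exists_le_valuationSubring
  refine ⟨W, ?_⟩
  have h1 : ∀ x ∈ O, f x ∈ W := fun x hx => hW (Subring.mem_map.mpr ⟨x, hx, rfl⟩)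
  ext x
  rw [ValuationSubring.mem_comap]
  refine ⟨fun hx => ?_, h1 x⟩
  by_contra hx'
  have hinv : x⁻¹ ∈ O := (O.mem_or_inv_mem x).resolve_left hx'
  have hx0 : x ≠ 0 := by
    rintro rfl
    exact hx' O.zero_mem
  have hfx0 : f x ≠ 0 := (map_ne_zero f).mpr hx0
  have hmem : f x⁻¹ ∈ (O.toLocalSubring.map f).toSubring := Subring.mem_map.mpr ⟨_, hinv, rfl⟩
  have hu : IsUnit (Subring.inclusion hW (⟨f x⁻¹, hmem⟩ : (O.toLocalSubring.map f).toSubring)) := by
    refine isUnit_iff_exists_inv.mpr ⟨⟨f x, hx⟩, Subtype.ext ?_⟩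
    change f x⁻¹ * f x = 1
    rw [map_inv₀, inv_mul_cancel₀ hfx0]
  obtain ⟨⟨y, hy⟩, hy'⟩ := isUnit_iff_exists_inv.mp (hloc.map_nonunit _ hu)
  have hy2 : f x⁻¹ * y = 1 := congrArg Subtype.val hy'
  obtain ⟨z, hz, hzy⟩ := Subring.mem_map.mp hy
  have h3 : f (x⁻¹ * z) = f 1 := by
    rw [map_mul, map_one, hzy, hy2]
  have h4 := f.injective h3
  have h5 : z = x := by
    have := congrArg (fun t => x * t) h4
    simpa [← mul_assoc, mul_inv_cancel₀ hx0] using this
  exact hx' (h5 ▸ hz)

section

variable {k L N : Type} [Field k] [Field L] [Field N] [Algebra k L] [Algebra L N] [Algebra k N]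
  [IsScalarTower k L N] (B : IntermediateField k N) [Algebra.IsAlgebraic k B]
  (O : ValuationSubring L) (hk : ∀ c : k, algebraMap k L c ∈ O)
  (hres : ∀ a ∈ O, ∃ c : k, O.valuation (a - algebraMap k L c) < 1)
  (W : ValuationSubring N) (hW : W.comap (algebraMap L N) = O)

include hk hW in
lemma mem_of_alg {b : N} (hb : b ∈ B) : b ∈ W := by
  have h1 : IsIntegral k (⟨b, hb⟩ : B) := Algebra.IsIntegral.isIntegral _
  obtain ⟨p, hp, hp0⟩ := h1
  have h2 : ∀ c : k, algebraMap k N c ∈ W := by
    intro c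
    have h3 := hk c
    rw [← hW, ValuationSubring.mem_comap] at h3
    rwa [← IsScalarTower.algebraMap_apply] at h3
  let g : k →+* W := (algebraMap k N).codRestrict W.toSubring h2
  have h4 : IsIntegral W b := by
    refine ⟨p.map g, hp.map g, ?_⟩
    rw [Polynomial.eval₂_map]
    have h5 : (algebraMap W N).comp g = algebraMap k N := by
      ext c
      rfl
    rw [h5]
    have h6 := congrArg (algebraMap B N) hp0
    rw [Polynomial.hom_eval₂, map_zero] at h6
    have h7 : (algebraMap B N).comp (algebraMap k B) = algebraMap k N := by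
      ext c
      rfl
    rw [h7] at h6
    exact h6
  obtain ⟨w, hw⟩ := IsIntegrallyClosed.isIntegral_iff.mp h4
  rw [← hw]
  exact w.2

include hk hW in
lemma unit_of_alg {b : N} (hb : b ∈ B) (hb0 : b ≠ 0) : W.valuation b = 1 := by
  refine le_antisymm ((W.valuation_le_one_iff b).mpr (mem_of_alg B O hk W hW hb)) ?_
  have h1 : W.valuation b⁻¹ ≤ 1 :=
    (W.valuation_le_one_iff _).mpr (mem_of_alg B O hk W hW (B.inv_mem hb))
  rw [map_inv₀] at h1
  exact (inv_le_one₀ (zero_lt_iff.mpr ((map_ne_zero _).mpr hb0))).mp h1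

include hk hres hW in
lemma key {ι : Type} (s : Finset ι) (x : ι → L) (hx : ∃ i ∈ s, x i ≠ 0) :
    ∃ j ∈ s, ∀ b : ι → N, (∀ i, b i ∈ B) → LinearIndependent k b →
      W.valuation (∑ i ∈ s, algebraMap L N (x i) * b i) = W.valuation (algebraMap L N (x j)) := by
  classical
  obtain ⟨i0, hi0, hxi0⟩ := hx
  obtain ⟨j, hj, hmax⟩ := s.exists_max_image (fun i => O.valuation (x i)) ⟨i0, hi0⟩
  have hxj : x j ≠ 0 := by
    intro h
    have h1 := hmax i0 hi0
    rw [h, map_zero, le_zero_iff, map_eq_zero] at h1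
    exact hxi0 h1
  have hO : ∀ i ∈ s, x i / x j ∈ O := by
    intro i hi
    rw [← O.valuation_le_one_iff, map_div₀]
    exact div_le_one_of_le₀ (hmax i hi) zero_le'
  have hc : ∀ i, ∃ c : k, i ∈ s → O.valuation (x i / x j - algebraMap k L c) < 1 := by
    intro i
    by_cases hi : i ∈ s
    · obtain ⟨c, hc⟩ := hres _ (hO i hi)
      exact ⟨c, fun _ => hc⟩
    · exact ⟨0, fun h => absurd h hi⟩
  choose c hc using hc
  have hcj : c j ≠ 0 := by
    intro h
    have h1 := hc j hj
    rw [h, map_zero, sub_zero, div_self hxj, map_one] at h1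
    exact lt_irrefl _ h1
  refine ⟨j, hj, fun b hb hli => ?_⟩
  have hsmall : ∀ a : L, O.valuation a < 1 → W.valuation (algebraMap L N a) < 1 := by
    intro a ha
    by_cases ha0 : a = 0
    · rw [ha0, map_zero, map_zero]
      exact zero_lt_one
    have h1 : ¬ a⁻¹ ∈ O := by
      rw [← O.valuation_le_one_iff, map_inv₀, not_le]
      exact (one_lt_inv₀ (zero_lt_iff.mpr ((map_ne_zero _).mpr ha0))).mpr ha
    rw [← hW, ValuationSubring.mem_comap, ← W.valuation_le_one_iff, map_inv₀, map_inv₀, not_le] at h1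
    refine (one_lt_inv₀ (zero_lt_iff.mpr ((map_ne_zero _).mpr ?_))).mp h1
    exact (map_ne_zero _).mpr ha0
  have h1 : ∑ i ∈ s, algebraMap L N (x i) * b i = algebraMap L N (x j) *
      (∑ i ∈ s, c i • b i + ∑ i ∈ s, algebraMap L N (x i / x j - algebraMap k L (c i)) * b i) := by
    rw [← Finset.sum_add_distrib, Finset.mul_sum]
    refine Finset.sum_congr rfl fun i _ => ?_
    have h2 : algebraMap L N (x j) ≠ 0 := (map_ne_zero _).mpr hxj
    rw [Algebra.smul_def, map_sub, map_div₀, ← IsScalarTower.algebraMap_apply]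
    field_simp
    ring
  have h2 : ∑ i ∈ s, c i • b i ∈ B := sum_mem fun i _ => B.smul_mem (hb i)
  have h3 : ∑ i ∈ s, c i • b i ≠ 0 := by
    intro h
    exact hcj (linearIndependent_iff'.mp hli s c h j hj)
  have h4 : W.valuation (∑ i ∈ s, c i • b i) = 1 := unit_of_alg B O hk W hW h2 h3
  have h5 : W.valuation (∑ i ∈ s, algebraMap L N (x i / x j - algebraMap k L (c i)) * b i) < 1 := by
    refine Valuation.map_sum_lt _ one_ne_zero fun i hi => ?_
    rw [map_mul]
    refine mul_lt_one_of_lt_of_le (hsmall _ (hc i hi)) ?_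
    exact (W.valuation_le_one_iff _).mpr (mem_of_alg B O hk W hW (hb i))
  rw [h1, map_mul, Valuation.map_add_eq_of_lt_left _ (by rwa [h4]), h4, mul_one]

end

theorem ext : Pool.Agent.Helper88.MT.S_ext := by
  intro k L N _ _ _ _ _ _ _ B _ hspan O hk hres
  obtain ⟨W, hW⟩ := exists_ext (algebraMap L N) O
  refine ⟨W, hW, fun τ hτ x => ?_⟩
  classical
  let b0 := Module.Basis.ofVectorSpace k B
  let b : _ → N := fun i => (b0 i : N)
  have hb : ∀ i, b i ∈ B := fun i => (b0 i).2
  have hli : LinearIndependent k b := b0.linearIndependent.map' B.val.toLinearMap (by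
    rw [LinearMap.ker_eq_bot]
    exact Subtype.val_injective)
  have hsp : x ∈ Submodule.span L (Set.range b) := by
    have h1 : (B : Set N) ⊆ Submodule.span L (Set.range b) := by
      intro y hy
      have h2 : (⟨y, hy⟩ : B) ∈ Submodule.span k (Set.range b0) := b0.mem_span _
      have h3 := Submodule.mem_map_of_mem (f := B.val.toLinearMap) h2
      rw [Submodule.map_span] at h3
      have h4 : B.val.toLinearMap '' Set.range b0 = Set.range b := by
        rw [← Set.range_comp]
        rfl
      rw [h4] at h3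
      exact Submodule.span_subset_span k L _ h3
    exact Submodule.span_le.mpr h1 (hspan x)
  rw [Finsupp.mem_span_range_iff_exists_finsupp] at hsp
  obtain ⟨a, rfl⟩ := hsp
  have hx : (a.sum fun i r => r • b i) = ∑ i ∈ a.support, algebraMap L N (a i) * b i := by
    rw [Finsupp.sum]
    exact Finset.sum_congr rfl fun i _ => Algebra.smul_def _ _
  rw [hx]
  by_cases ha : a.support = ∅
  · rw [ha, Finset.sum_empty, map_zero]
  obtain ⟨i0, hi0⟩ := Finset.nonempty_iff_ne_empty.mpr ha
  obtain ⟨j, hj, hkey⟩ := key B O hk hres W hW a.support a ⟨i0, hi0, Finsupp.mem_support_iff.mp hi0⟩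
  have hτx : τ (∑ i ∈ a.support, algebraMap L N (a i) * b i) =
      ∑ i ∈ a.support, algebraMap L N (a i) * τ (b i) := by
    rw [map_sum]
    refine Finset.sum_congr rfl fun i _ => ?_
    rw [map_mul, AlgEquiv.commutes]
  have hli' : LinearIndependent k fun i => τ (b i) :=
    hli.map' (τ.restrictScalars k).toLinearEquiv.toLinearMap (LinearEquiv.ker _)
  have h1 := hkey b hb hli
  have h2 := hkey (fun i => τ (b i)) (fun i => hτ _ (hb i)) hli'
  rw [← W.valuation_le_one_iff, ← W.valuation_le_one_iff, hτx, h1, h2]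

end Pool.Agent.Helper64.MT
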